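import Pool.Agent.MPN.Defs

set_option autoImplicit false

/-!
MPN-ExB. The ring of the functions with constant parity is closed under the CONSTANT TERMS of
minimal polynomials, but does not contain the zero indicators: the constant term of the minimal
polynomial of an integer matrix is even if and only if the determinant is even.
-/

namespace Pool.Agent.MPN

open Polynomial

/-- closed under the constant terms of minimal polynomials -/
def ConstClosed {X : Type} (R : Subring (X → ℤ)) : Prop :=
  ∀ (ι : Type) [Fintype ι] [DecidableEq ι] (A : ι → ι → X → ℤ), (∀ i j, A i j ∈ R) →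
    ∃ m ∈ R, ∀ x, ((m x : ℤ) : ℚ) = (minpoly ℚ (at' A x)).coeff 0

/-- the minimal polynomial of an integer matrix is an integer polynomial -/
private theorem exists_mu {ι : Type} [Fintype ι] [DecidableEq ι] (B : Matrix ι ι ℤ) :
    ∃ μ : ℤ[X], μ.Monic ∧
      μ.map (Int.castRingHom ℚ) = minpoly ℚ ((Int.castRingHom ℚ).mapMatrix B) := by
  have hdvd : minpoly ℚ ((Int.castRingHom ℚ).mapMatrix B) ∣
      B.charpoly.map (algebraMap ℤ ℚ) := by
    have h1 := Matrix.minpoly_dvd_charpoly ((Int.castRingHom ℚ).mapMatrix B)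
    have h2 : ((Int.castRingHom ℚ).mapMatrix B).charpoly = B.charpoly.map (algebraMap ℤ ℚ) := by
      rw [RingHom.mapMatrix_apply, Matrix.charpoly_map]
      rfl
    rw [h2] at h1
    exact h1
  obtain ⟨μ, hμ⟩ := IsIntegrallyClosed.eq_map_mul_C_of_dvd ℚ (Matrix.charpoly_monic B) hdvd
  have hmon : (minpoly ℚ ((Int.castRingHom ℚ).mapMatrix B)).Monic :=
    minpoly.monic (Matrix.isIntegral _)
  rw [hmon.leadingCoeff, C_1, mul_one] at hμ
  have hμ' : μ.map (Int.castRingHom ℚ) = minpoly ℚ ((Int.castRingHom ℚ).mapMatrix B) := hμ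
  refine ⟨μ, ?_, hμ'⟩
  apply Polynomial.monic_of_injective (f := Int.castRingHom ℚ) Int.cast_injective
  rw [hμ']
  exact hmon

private theorem mu_zero {ι : Type} [Fintype ι] [DecidableEq ι] {B : Matrix ι ι ℤ} {μ : ℤ[X]}
    (hmon : μ.Monic)
    (hμ : μ.map (Int.castRingHom ℚ) = minpoly ℚ ((Int.castRingHom ℚ).mapMatrix B)) :
    ((μ.coeff 0 : ℤ) : ZMod 2) = 0 ↔ ((B.det : ℤ) : ZMod 2) = 0 := by
  constructor
  · intro h
    have hdvd : μ ∣ B.charpoly := by
      rw [← Polynomial.map_dvd_map (Int.castRingHom ℚ) Int.cast_injective hmon, hμ]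
      have h1 := Matrix.minpoly_dvd_charpoly ((Int.castRingHom ℚ).mapMatrix B)
      rw [RingHom.mapMatrix_apply, Matrix.charpoly_map] at h1
      exact h1
    obtain ⟨ν, hν⟩ := hdvd
    rw [Matrix.det_eq_sign_charpoly_coeff, hν, mul_coeff_zero]
    push_cast
    rw [h, zero_mul, mul_zero]
  · intro h
    have hann : aeval B μ = 0 := by
      have h1 : ((Int.castRingHom ℚ).mapMatrix).toIntAlgHom (aeval B μ) = 0 := by
        rw [← aeval_algHom_apply]
        change aeval ((Int.castRingHom ℚ).mapMatrix B) μ = 0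
        have h2 : aeval ((Int.castRingHom ℚ).mapMatrix B) (μ.map (algebraMap ℤ ℚ)) =
            aeval ((Int.castRingHom ℚ).mapMatrix B) μ := aeval_map_algebraMap ℚ _ μ
        rw [← h2]
        have h3 : μ.map (algebraMap ℤ ℚ) = minpoly ℚ ((Int.castRingHom ℚ).mapMatrix B) := hμ
        rw [h3]
        exact minpoly.aeval ℚ _
      have h4 : Function.Injective ((Int.castRingHom ℚ).mapMatrix (m := ι)) :=
        Matrix.map_injective Int.cast_injective
      apply h4
      rw [map_zero]
      exact h1
    have hann2 : aeval ((Int.castRingHom (ZMod 2)).mapMatrix B) μ = 0 := by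
      have h1 : ((Int.castRingHom (ZMod 2)).mapMatrix).toIntAlgHom (aeval B μ) = 0 := by
        rw [hann, map_zero]
      rw [← aeval_algHom_apply] at h1
      exact h1
    have hdet : ((Int.castRingHom (ZMod 2)).mapMatrix B).det = 0 := by
      rw [← RingHom.map_det]
      exact h
    obtain ⟨v, hv, hBv⟩ := Matrix.exists_mulVec_eq_zero_iff.2 hdet
    rw [← divX_mul_X_add μ, map_add, map_mul, aeval_X, aeval_C] at hann2
    have h5 := congrArg (fun N : Matrix ι ι (ZMod 2) => N.mulVec v) hann2
    have h6 : (aeval ((Int.castRingHom (ZMod 2)).mapMatrix B) μ.divX *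
        (Int.castRingHom (ZMod 2)).mapMatrix B +
          (algebraMap ℤ (Matrix ι ι (ZMod 2))) (μ.coeff 0)).mulVec v =
        (0 : Matrix ι ι (ZMod 2)).mulVec v := h5
    rw [Matrix.add_mulVec, ← Matrix.mulVec_mulVec, hBv, Matrix.mulVec_zero, zero_add,
      Matrix.zero_mulVec, Algebra.algebraMap_eq_smul_one, Matrix.smul_mulVec,
      Matrix.one_mulVec] at h6
    obtain ⟨i, hi⟩ : ∃ i, v i ≠ 0 := by
      by_contra hne
      push Not at hne
      exact hv (funext hne)
    have h7 : (μ.coeff 0) • v i = 0 := congrFun h6 i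
    rw [zsmul_eq_mul] at h7
    exact (mul_eq_zero.1 h7).resolve_right hi

/-- the ring of the functions with constant parity -/
private def R2 : Subring (Bool → ℤ) :=
  ((Int.castRingHom (ZMod 2)).comp (Pi.evalRingHom (fun _ : Bool => ℤ) true)).eqLocus
    ((Int.castRingHom (ZMod 2)).comp (Pi.evalRingHom (fun _ : Bool => ℤ) false))

private theorem mem_R2 {f : Bool → ℤ} :
    f ∈ R2 ↔ ((f true : ℤ) : ZMod 2) = ((f false : ℤ) : ZMod 2) := Iff.rfl

private theorem two_cases (a b : ZMod 2) (h : a = 0 ↔ b = 0) : a = b := by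
  revert a b
  decide

theorem exB : ∃ R : Subring (Bool → ℤ), ConstClosed R ∧ ¬ ZeroInd R := by
  refine ⟨R2, ?_, ?_⟩
  · intro ι _ _ A hA
    choose μ hmon hμ using fun x : Bool => exists_mu (Matrix.of fun i j => A i j x)
    refine ⟨fun x => (μ x).coeff 0, ?_, ?_⟩
    · rw [mem_R2]
      apply two_cases
      rw [mu_zero (hmon true) (hμ true), mu_zero (hmon false) (hμ false)]
      have hdet : (((Matrix.of fun i j => A i j true).det : ℤ) : ZMod 2) =
          (((Matrix.of fun i j => A i j false).det : ℤ) : ZMod 2) := by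
        have h1 : ∀ B : Matrix ι ι ℤ, ((B.det : ℤ) : ZMod 2) =
            ((Int.castRingHom (ZMod 2)).mapMatrix B).det := fun B =>
          RingHom.map_det (Int.castRingHom (ZMod 2)) B
        rw [h1, h1]
        congr 1
        ext i j
        exact mem_R2.1 (hA i j)
      rw [hdet]
    · intro x
      have h1 : at' A x = (Int.castRingHom ℚ).mapMatrix (Matrix.of fun i j => A i j x) := rfl
      rw [h1, ← hμ x, coeff_map]
      rfl
  · intro h
    have h1 : (fun b : Bool => if b = true then (0 : ℤ) else 2) ∈ R2 := by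
      rw [mem_R2]
      decide
    have h2 := h _ h1
    rw [mem_R2] at h2
    revert h2
    unfold zi
    decide

end Pool.Agent.MPN
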