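import Pool.Agent.MPN.Defs

set_option autoImplicit false

/-!
MPN-Int. Integrality of the coefficients of the minimal polynomial: the minimal polynomials (of the
given degree) are glued to a monic polynomial over the ring of all functions, which divides the
characteristic polynomial times a power of the variable.
-/

namespace Pool.Agent.MPN

open Polynomial

/-- gluing of polynomials of bounded degree -/
private noncomputable def glue {X : Type} (N : ℕ) (q : X → ℤ[X]) : (X → ℤ)[X] :=
  ∑ j ∈ Finset.range (N + 1), monomial j (fun x => (q x).coeff j)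

private theorem glue_coeff {X : Type} {N : ℕ} {q : X → ℤ[X]} (hq : ∀ x, (q x).natDegree ≤ N)
    (k : ℕ) : (glue N q).coeff k = fun x => (q x).coeff k := by
  rw [glue, finsetSum_coeff]
  simp only [coeff_monomial]
  by_cases hk : k ≤ N
  · rw [Finset.sum_eq_single k]
    · simp
    · intro j _ hj
      exact if_neg hj
    · intro h
      exact absurd (Finset.mem_range.2 (Nat.lt_succ_of_le hk)) h
  · rw [Finset.sum_eq_zero]
    · funext x
      exact (coeff_eq_zero_of_natDegree_lt (lt_of_le_of_lt (hq x) (not_le.1 hk))).symm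
    · intro j hj
      refine if_neg ?_
      have := Finset.mem_range.1 hj
      omega

private theorem ext_eval {X : Type} {p q : (X → ℤ)[X]}
    (h : ∀ x, p.map (Pi.evalRingHom (fun _ => ℤ) x) = q.map (Pi.evalRingHom (fun _ => ℤ) x)) :
    p = q := by
  ext k x
  have h1 := congrArg (fun f : ℤ[X] => f.coeff k) (h x)
  simp only [coeff_map] at h1
  exact h1

private theorem glue_map {X : Type} {N : ℕ} {q : X → ℤ[X]} (hq : ∀ x, (q x).natDegree ≤ N)
    (x : X) : (glue N q).map (Pi.evalRingHom (fun _ => ℤ) x) = q x := by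
  ext k
  rw [coeff_map, glue_coeff hq]
  rfl

private theorem glue_monic {X : Type} {N : ℕ} {q : X → ℤ[X]} (hq : ∀ x, (q x).natDegree = N)
    (hm : ∀ x, (q x).Monic) : (glue N q).Monic := by
  have h1 : ∀ k, (glue N q).coeff k = fun x => (q x).coeff k := glue_coeff fun x => (hq x).le
  refine monic_of_natDegree_le_of_coeff_eq_one N ?_ ?_
  · rw [natDegree_le_iff_coeff_eq_zero]
    intro k hk
    rw [h1]
    funext x
    exact coeff_eq_zero_of_natDegree_lt (by rw [hq x]; exact hk)
  · rw [h1]
    funext x
    have := (hm x).coeff_natDegree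
    rw [hq x] at this
    exact this

theorem int_coeff {X : Type} {R : Subring (X → ℤ)} {ι : Type} [Fintype ι] [DecidableEq ι]
    {A : ι → ι → X → ℤ} (hA : ∀ i j, A i j ∈ R) {d : ℕ} {e : X → ℤ} (he : e ∈ R)
    (h1 : ∀ x, (minpoly ℚ (at' A x)).natDegree = d → e x = 1)
    (h0 : ∀ x, (minpoly ℚ (at' A x)).natDegree ≠ d → e x = 0) (k : ℕ) :
    ∃ y : X → ℤ, IsIntegral R y ∧
      ∀ x, ((y x : ℤ) : ℚ) = (e x : ℚ) * (minpoly ℚ (at' A x)).coeff k := by
  classical
  let A' : Matrix ι ι R := Matrix.of fun i j => ⟨A i j, hA i j⟩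
  let ev : X → R →+* ℤ := fun x => (Pi.evalRingHom (fun _ => ℤ) x).comp R.subtype
  have hev : ∀ x, ((A'.charpoly.map (ev x)).map (Int.castRingHom ℚ)) = (at' A x).charpoly := by
    intro x
    rw [← Matrix.charpoly_map, ← Matrix.charpoly_map]
    rfl
  have hχm : ∀ x, (A'.charpoly.map (ev x)).Monic := fun x => (Matrix.charpoly_monic _).map _
  -- the integral minimal polynomial
  have hμ : ∀ x, ∃ μ : ℤ[X], μ.Monic ∧ μ.map (Int.castRingHom ℚ) = minpoly ℚ (at' A x) ∧
      μ ∣ A'.charpoly.map (ev x) := by
    intro x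
    have hint : IsIntegral ℚ (at' A x) := Matrix.isIntegral (at' A x)
    have hmon : (minpoly ℚ (at' A x)).Monic := minpoly.monic hint
    have hdvd : minpoly ℚ (at' A x) ∣ (A'.charpoly.map (ev x)).map (algebraMap ℤ ℚ) := by
      have := Matrix.minpoly_dvd_charpoly (at' A x)
      rw [← hev x] at this
      exact this
    obtain ⟨μ, hμ⟩ := IsIntegrallyClosed.eq_map_mul_C_of_dvd ℚ (hχm x) hdvd
    rw [hmon.leadingCoeff, map_one, mul_one] at hμ
    have hμ' : μ.map (Int.castRingHom ℚ) = minpoly ℚ (at' A x) := hμ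
    have hμm : μ.Monic := monic_of_injective (f := Int.castRingHom ℚ) Int.cast_injective
      (by rw [hμ']; exact hmon)
    refine ⟨μ, hμm, hμ', ?_⟩
    rw [← map_dvd_map (Int.castRingHom ℚ) Int.cast_injective hμm, hμ']
    exact hdvd
  choose μ hμm hμq hμd using hμ
  have hdeg : ∀ x, (μ x).natDegree = (minpoly ℚ (at' A x)).natDegree := by
    intro x
    rw [← hμq x, (hμm x).natDegree_map]
  -- the polynomials of degree `d`
  let q : X → ℤ[X] := fun x => if (μ x).natDegree = d then μ x else Polynomial.X ^ d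
  have hqm : ∀ x, (q x).Monic := by
    intro x
    by_cases h : (μ x).natDegree = d
    · simp only [q, if_pos h]; exact hμm x
    · simp only [q, if_neg h]; exact monic_X_pow d
  have hqd : ∀ x, (q x).natDegree = d := by
    intro x
    by_cases h : (μ x).natDegree = d
    · simp only [q, if_pos h]; exact h
    · simp only [q, if_neg h]; exact natDegree_X_pow d
  have hr : ∀ x, ∃ r : ℤ[X], Polynomial.X ^ d * A'.charpoly.map (ev x) = q x * r := by
    intro x
    by_cases h : (μ x).natDegree = d
    · simp only [q, if_pos h]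
      exact (hμd x).mul_left _
    · simp only [q, if_neg h]
      exact ⟨_, rfl⟩
  choose r hr using hr
  have hrd : ∀ x, (r x).natDegree ≤ Fintype.card ι := by
    intro x
    have h2 := congrArg natDegree (hr x)
    have hne : r x ≠ 0 := by
      intro h3
      have h4 : (Polynomial.X ^ d * A'.charpoly.map (ev x) : ℤ[X]) ≠ 0 :=
        ((monic_X_pow d).mul (hχm x)).ne_zero
      rw [hr x, h3, mul_zero] at h4
      exact h4 rfl
    have h5 : (A'.charpoly.map (ev x)).natDegree = Fintype.card ι := by
      have h6 := (hχm x).natDegree_map (Int.castRingHom ℚ)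
      rw [hev x, Matrix.charpoly_natDegree_eq_dim] at h6
      exact h6.symm
    rw [(monic_X_pow d).natDegree_mul (hχm x), natDegree_X_pow, (hqm x).natDegree_mul' hne, hqd x,
      h5] at h2
    omega
  have hdvd : glue d q ∣ (Polynomial.X ^ d * A'.charpoly).map (algebraMap R (X → ℤ)) := by
    refine ⟨glue (Fintype.card ι) r, ?_⟩
    refine ext_eval fun x => ?_
    rw [Polynomial.map_mul (Pi.evalRingHom (fun _ => ℤ) x) (p := glue d q),
      glue_map (fun x => (hqd x).le), glue_map hrd, ← hr x,
      Polynomial.map_map, Polynomial.map_mul, Polynomial.map_pow, Polynomial.map_X]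
    rfl
  have hintc := isIntegral_coeff_of_dvd (Polynomial.X ^ d * A'.charpoly) (glue d q)
    ((monic_X_pow d).mul (Matrix.charpoly_monic A')) (glue_monic hqd hqm) hdvd k
  have hinte : IsIntegral R e := isIntegral_algebraMap (x := (⟨e, he⟩ : R))
  refine ⟨e * (glue d q).coeff k, hinte.mul hintc, ?_⟩
  intro x
  rw [glue_coeff (fun x => (hqd x).le)]
  change ((e x * (q x).coeff k : ℤ) : ℚ) = _
  rw [Int.cast_mul]
  by_cases h : (minpoly ℚ (at' A x)).natDegree = d
  · have h2 : q x = μ x := by
      simp only [q]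
      rw [if_pos ((hdeg x).trans h)]
    rw [h2, ← hμq x, coeff_map]
    rfl
  · rw [h0 x h]
    simp

end Pool.Agent.MPN
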