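import Pool.Agent.MPN.Gram
import Pool.Agent.MPN.Int

set_option autoImplicit false

/-!
Zero indicators and integral exact quotients => closed under minimal polynomials.
-/

namespace Pool.Agent.MPN

open Polynomial Matrix

/-- evaluation at a point, with rational values -/
noncomputable def evq {Ω : Type} (R : Subring (Ω → ℤ)) (x : Ω) : R →+* ℚ :=
  (Int.castRingHom ℚ).comp ((Pi.evalRingHom (fun _ : Ω => ℤ) x).comp R.subtype)

theorem evq_apply {Ω : Type} (R : Subring (Ω → ℤ)) (x : Ω) (r : R) :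
    evq R x r = (((r : Ω → ℤ) x : ℤ) : ℚ) := rfl

theorem minPolyClosed {Ω : Type} {R : Subring (Ω → ℤ)} (hz : ZeroInd R) (hq : QuoClosed R) :
    MinPolyClosed R := by
  intro ι _ _ A hA k
  set A' : Matrix ι ι R := Matrix.of fun i j => ⟨A i j, hA i j⟩ with hA'
  have hmap : ∀ x, A'.map (evq R x) = at' A x := fun x => rfl
  set Δ : ℕ → R := fun j => (gm A' j).det with hΔ
  have hΔx : ∀ j x, (((Δ j : Ω → ℤ) x : ℤ) : ℚ) = (gm (at' A x) j).det := by
    intro j x
    rw [← evq_apply, ← hmap]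
    exact det_gm_map (evq R x) A' j
  have hΔ0 : ∀ j x, (Δ j : Ω → ℤ) x ≠ 0 ↔ j ≤ (minpoly ℚ (at' A x)).natDegree := by
    intro j x
    rw [← det_gm_ne_zero, ← hΔx]
    exact_mod_cast Iff.rfl
  set e : ℕ → Ω → ℤ := fun d => zi (Δ (d + 1) : Ω → ℤ) * (1 - zi (Δ d : Ω → ℤ)) with he
  have heR : ∀ d, e d ∈ R := fun d =>
    R.mul_mem (hz _ (Δ (d + 1)).2) (R.sub_mem R.one_mem (hz _ (Δ d).2))
  have hzi1 : ∀ (j : ℕ) (x : Ω), j ≤ (minpoly ℚ (at' A x)).natDegree →
      zi (Δ j : Ω → ℤ) x = 0 := by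
    intro j x hj
    unfold zi
    rw [if_neg ((hΔ0 j x).2 hj)]
  have hzi0 : ∀ (j : ℕ) (x : Ω), ¬ j ≤ (minpoly ℚ (at' A x)).natDegree →
      zi (Δ j : Ω → ℤ) x = 1 := by
    intro j x hj
    unfold zi
    rw [if_pos (not_not.1 (fun h => hj ((hΔ0 j x).1 h)))]
  have he1 : ∀ d x, (minpoly ℚ (at' A x)).natDegree = d → e d x = 1 := by
    intro d x hd
    show zi (Δ (d + 1) : Ω → ℤ) x * (1 - zi (Δ d : Ω → ℤ) x) = 1
    rw [hzi0 (d + 1) x (by omega), hzi1 d x (by omega)]
    norm_num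
  have he0 : ∀ d x, (minpoly ℚ (at' A x)).natDegree ≠ d → e d x = 0 := by
    intro d x hd
    show zi (Δ (d + 1) : Ω → ℤ) x * (1 - zi (Δ d : Ω → ℤ) x) = 0
    by_cases h1 : d + 1 ≤ (minpoly ℚ (at' A x)).natDegree
    · rw [hzi1 (d + 1) x h1, zero_mul]
    · rw [hzi0 d x (by omega)]
      norm_num
  have hy : ∀ d, ∃ y ∈ R, ∀ x, ((y x : ℤ) : ℚ) = (e d x : ℚ) *
      (minpoly ℚ (at' A x)).coeff k := by
    intro d
    by_cases hkd : k < d
    · obtain ⟨y, hyi, hyx⟩ := int_coeff hA (heR d) (he1 d) (he0 d) k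
      refine ⟨y, ?_, hyx⟩
      set N : R := -((gm A' d).adjugate *ᵥ gb A' d) ⟨k, hkd⟩ with hN
      have hNx : ∀ x, (((N : Ω → ℤ) x : ℤ) : ℚ) =
          -((gm (at' A x) d).adjugate *ᵥ gb (at' A x) d) ⟨k, hkd⟩ := by
        intro x
        rw [← evq_apply, ← hmap, hN, map_neg, adj_gm_map (evq R x) A' d ⟨k, hkd⟩]
      refine hq (e d * (N : Ω → ℤ)) (e d * (Δ d : Ω → ℤ) + (1 - e d)) y
        (R.mul_mem (heR d) N.2)
        (R.add_mem (R.mul_mem (heR d) (Δ d).2) (R.sub_mem R.one_mem (heR d))) ?_ ?_ hyi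
      · intro x
        show e d x * (Δ d : Ω → ℤ) x + (1 - e d x) ≠ 0
        by_cases h1 : (minpoly ℚ (at' A x)).natDegree = d
        · rw [he1 d x h1]
          have h2 := (hΔ0 d x).2 h1.ge
          simpa using h2
        · rw [he0 d x h1]
          norm_num
      · funext x
        show y x * (e d x * (Δ d : Ω → ℤ) x + (1 - e d x)) = e d x * (N : Ω → ℤ) x
        have h3 := hyx x
        by_cases h1 : (minpoly ℚ (at' A x)).natDegree = d
        · rw [he1 d x h1] at h3 ⊢
          have h4 := cramer' (at' A x) h1 ⟨k, hkd⟩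
          rw [← hNx, ← hΔx] at h4
          simp only [Int.cast_one, one_mul] at h3
          have h5 : (minpoly ℚ (at' A x)).coeff (((⟨k, hkd⟩ : Fin d) : ℕ)) = ((y x : ℤ) : ℚ) :=
            h3.symm
          rw [h5] at h4
          have h6 : (Δ d : Ω → ℤ) x * y x = (N : Ω → ℤ) x := by exact_mod_cast h4
          rw [← h6]
          ring
        · rw [he0 d x h1] at h3 ⊢
          simp only [Int.cast_zero, zero_mul] at h3
          have h5 : y x = 0 := by exact_mod_cast h3
          rw [h5]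
          ring
    · by_cases hkd' : k = d
      · refine ⟨e d, heR d, ?_⟩
        intro x
        by_cases h1 : (minpoly ℚ (at' A x)).natDegree = d
        · have h2 : (minpoly ℚ (at' A x)).Monic :=
            minpoly.monic (Algebra.IsIntegral.isIntegral (at' A x))
          have h3 : (minpoly ℚ (at' A x)).coeff k = 1 := by
            rw [hkd', ← h1]
            exact h2
          rw [h3, mul_one]
        · rw [he0 d x h1]
          simp
      · refine ⟨0, R.zero_mem, ?_⟩
        intro x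
        by_cases h1 : (minpoly ℚ (at' A x)).natDegree = d
        · rw [coeff_eq_zero_of_natDegree_lt (by omega)]
          simp
        · rw [he0 d x h1]
          simp
  choose y hyR hyx using hy
  refine ⟨∑ d ∈ Finset.range (Fintype.card ι + 1), y d, R.sum_mem fun d _ => hyR d, ?_⟩
  intro x
  have hle : (minpoly ℚ (at' A x)).natDegree ≤ Fintype.card ι := by
    have h1 : minpoly ℚ (at' A x) ∣ (at' A x).charpoly := Matrix.minpoly_dvd_charpoly _
    have h2 := natDegree_le_of_dvd h1 (Matrix.charpoly_monic _).ne_zero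
    rwa [Matrix.charpoly_natDegree_eq_dim] at h2
  rw [Finset.sum_apply, Int.cast_sum]
  rw [Finset.sum_eq_single (minpoly ℚ (at' A x)).natDegree]
  · rw [hyx, he1 _ x rfl]
    simp
  · intro d _ hd
    rw [hyx, he0 d x (Ne.symm hd)]
    simp
  · intro hd
    exact absurd (Finset.mem_range.2 (by omega)) hd

end Pool.Agent.MPN
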