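import Pool.Agent.MPN.Quo

set_option autoImplicit false

/-!
A ring which contains the zero indicators but is not closed under minimal polynomials: the functions
which agree for all large `n` with an integer polynomial without linear term.
-/

namespace Pool.Agent.MPN

open Polynomial

/-- the functions which agree for all large `n` with an integer polynomial without linear term -/
def ringA : Subring (ℕ → ℤ) where
  carrier := {f | ∃ P : ℤ[X], P.coeff 1 = 0 ∧ ∃ N : ℕ, ∀ n ≥ N, f n = P.eval (n : ℤ)}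
  mul_mem' := by
    rintro f g ⟨P, hP, N, hN⟩ ⟨Q, hQ, M, hM⟩
    refine ⟨P * Q, ?_, max N M, ?_⟩
    · rw [coeff_mul, Finset.Nat.antidiagonal_succ]
      simp [hP, hQ]
    · intro n hn
      rw [eval_mul, ← hN n (le_trans (le_max_left _ _) hn), ← hM n (le_trans (le_max_right _ _) hn)]
      rfl
  one_mem' := ⟨1, by simp [coeff_one], 0, fun n _ => by simp⟩
  add_mem' := by
    rintro f g ⟨P, hP, N, hN⟩ ⟨Q, hQ, M, hM⟩
    refine ⟨P + Q, by rw [coeff_add, hP, hQ, add_zero], max N M, ?_⟩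
    intro n hn
    rw [eval_add, ← hN n (le_trans (le_max_left _ _) hn), ← hM n (le_trans (le_max_right _ _) hn)]
    rfl
  zero_mem' := ⟨0, by simp, 0, fun n _ => by simp⟩
  neg_mem' := by
    rintro f ⟨P, hP, N, hN⟩
    refine ⟨-P, by rw [coeff_neg, hP, neg_zero], N, ?_⟩
    intro n hn
    rw [eval_neg, ← hN n hn]
    rfl

private theorem ev_ne {P : ℤ[X]} (hP : P ≠ 0) : ∃ N : ℕ, ∀ n ≥ N, P.eval (n : ℤ) ≠ 0 := by
  obtain ⟨b, hb⟩ := (P.roots.toFinset : Finset ℤ).bddAbove
  refine ⟨b.toNat + 1, ?_⟩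
  intro n hn h0
  have h1 : (n : ℤ) ∈ P.roots.toFinset := by
    rw [Multiset.mem_toFinset, mem_roots hP]
    exact h0
  have h2 := hb h1
  omega

theorem exA : ∃ R : Subring (ℕ → ℤ), ZeroInd R ∧ ¬ MinPolyClosed R := by
  refine ⟨ringA, ?_, ?_⟩
  · rintro f ⟨P, hP, N, hN⟩
    by_cases h0 : P = 0
    · refine ⟨1, by simp [coeff_one], N, ?_⟩
      intro n hn
      unfold zi
      rw [hN n hn, h0, eval_zero, if_pos rfl, eval_one]
    · obtain ⟨M, hM⟩ := ev_ne h0
      refine ⟨0, by simp, max N M, ?_⟩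
      intro n hn
      unfold zi
      rw [hN n (le_trans (le_max_left _ _) hn), if_neg (hM n (le_trans (le_max_right _ _) hn)),
        eval_zero]
  · intro h
    have hsq : (fun n : ℕ => (n : ℤ) ^ 2) ∈ ringA :=
      ⟨X ^ 2, by simp [coeff_X_pow], 0, fun n _ => by simp⟩
    have hcu : (fun n : ℕ => (n : ℤ) ^ 3) ∈ ringA :=
      ⟨X ^ 3, by simp [coeff_X_pow], 0, fun n _ => by simp⟩
    have hg : (fun n : ℕ => if n = 0 then (1 : ℤ) else (n : ℤ) ^ 2) ∈ ringA := by
      refine ⟨X ^ 2, by simp [coeff_X_pow], 1, ?_⟩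
      intro n hn
      show (if n = 0 then (1 : ℤ) else (n : ℤ) ^ 2) = _
      rw [if_neg (by omega)]
      simp
    have hq : (fun n : ℕ => (n : ℤ)) ∈ ringA := by
      refine quoClosed h _ _ _ hcu hg ?_ ?_ ?_
      · intro n
        show (if n = 0 then (1 : ℤ) else (n : ℤ) ^ 2) ≠ 0
        split_ifs with h1
        · exact one_ne_zero
        · exact pow_ne_zero 2 (by exact_mod_cast h1)
      · funext n
        show (n : ℤ) * (if n = 0 then (1 : ℤ) else (n : ℤ) ^ 2) = (n : ℤ) ^ 3
        split_ifs with h1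
        · rw [h1]
          norm_num
        · ring
      · refine ⟨X ^ 2 - C (⟨_, hsq⟩ : ringA), monic_X_pow_sub_C _ (by norm_num), ?_⟩
        rw [eval₂_sub, eval₂_X_pow, eval₂_C]
        funext n
        show (n : ℤ) ^ 2 - (n : ℤ) ^ 2 = 0
        ring
    obtain ⟨P, hP, N, hN⟩ := hq
    have h1 : P - X = 0 := by
      by_contra h2
      obtain ⟨M, hM⟩ := ev_ne h2
      refine hM (max N M) (le_max_right _ _) ?_
      rw [eval_sub, eval_X, ← hN (max N M) (le_max_left _ _), sub_self]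
    rw [sub_eq_zero.1 h1, coeff_X_one] at hP
    exact one_ne_zero hP

end Pool.Agent.MPN
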