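import Pool.Agent.MPN.Defs

set_option autoImplicit false

/-!
MPN-IC. A ring of integer valued functions which contains the indicators of the sets of zeros of its
elements is closed under integral exact quotients if and only if it is integrally closed in its total
ring of fractions. (The polynomials are compared by `Polynomial.scaleRoots`.)
-/

namespace Pool.Agent.MPN

open Polynomial

theorem quo_of_ic {X : Type} {R : Subring (X → ℤ)} (h : IsIntegrallyClosed R) : QuoClosed R := by
  intro f g y hf hg hg0 hfg hy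
  obtain ⟨P, hPm, hP⟩ := hy
  let K := FractionRing R
  let f' : R := ⟨f, hf⟩
  let g' : R := ⟨g, hg⟩
  have hgnz : g' ∈ nonZeroDivisors R := by
    rw [mem_nonZeroDivisors_iff_right]
    intro r hr
    apply Subtype.ext
    funext x
    have h1 : (r : X → ℤ) x * g x = 0 := congrFun (congrArg Subtype.val hr) x
    exact (mul_eq_zero.1 h1).resolve_right (hg0 x)
  have hgu : IsUnit (algebraMap R K g') := IsLocalization.map_units K ⟨g', hgnz⟩
  have h1 : eval f' (P.scaleRoots g') = 0 := by
    have h2 := scaleRoots_eval₂_mul (p := P) (algebraMap R (X → ℤ)) y g'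
    rw [hP, mul_zero] at h2
    have h3 : algebraMap R (X → ℤ) g' * y = algebraMap R (X → ℤ) f' := by
      rw [mul_comm]
      exact hfg
    rw [h3, eval₂_at_apply] at h2
    exact Subtype.ext h2
  let z : K := IsLocalization.mk' K f' (⟨g', hgnz⟩ : nonZeroDivisors R)
  have hz : algebraMap R K g' * z = algebraMap R K f' := by
    rw [mul_comm]
    exact IsLocalization.mk'_spec K f' (⟨g', hgnz⟩ : nonZeroDivisors R)
  have h4 : IsIntegral R z := by
    refine ⟨P, hPm, ?_⟩
    have h5 := scaleRoots_eval₂_mul (p := P) (algebraMap R K) z g'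
    rw [hz, eval₂_at_apply, h1, map_zero] at h5
    exact (hgu.pow P.natDegree).mul_right_eq_zero.1 h5.symm
  obtain ⟨y', hy'⟩ := (isIntegrallyClosed_iff K).1 h h4
  have h6 : g' * y' = f' := by
    apply IsFractionRing.injective R K
    rw [map_mul, hy', hz]
  have h7 : (y' : X → ℤ) = y := by
    funext x
    have h8 : g x * (y' : X → ℤ) x = f x := congrFun (congrArg Subtype.val h6) x
    have h9 : y x * g x = f x := congrFun hfg x
    exact mul_left_cancel₀ (hg0 x) (h8.trans (h9.symm.trans (mul_comm _ _)))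
  rw [← h7]
  exact y'.2

theorem ic_of_quo {X : Type} {R : Subring (X → ℤ)} (hz : ZeroInd R) (h : QuoClosed R) :
    IsIntegrallyClosed R := by
  let K := FractionRing R
  refine (isIntegrallyClosed_iff K).2 ?_
  rintro z ⟨P, hPm, hP⟩
  obtain ⟨⟨f, g⟩, hfg⟩ := IsLocalization.surj (nonZeroDivisors R) z
  have hfg' : z * algebraMap R K g = algebraMap R K f := hfg
  have hgu : IsUnit (algebraMap R K g) := IsLocalization.map_units K g
  have hg0 : ∀ x, ((g : R) : X → ℤ) x ≠ 0 := by
    intro x hx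
    have h1 : (⟨zi ((g : R) : X → ℤ), hz _ (g : R).2⟩ : R) * (g : R) = 0 := by
      apply Subtype.ext
      funext t
      show zi ((g : R) : X → ℤ) t * ((g : R) : X → ℤ) t = 0
      unfold zi
      split_ifs with h2
      · rw [h2, mul_zero]
      · rw [zero_mul]
    have h3 := (mem_nonZeroDivisors_iff_right.1 g.2) _ h1
    have h4 : zi ((g : R) : X → ℤ) x = 0 := congrFun (congrArg Subtype.val h3) x
    unfold zi at h4
    rw [if_pos hx] at h4
    exact one_ne_zero h4
  have h1 : eval f (P.scaleRoots (g : R)) = 0 := by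
    have h2 := scaleRoots_eval₂_mul (p := P) (algebraMap R K) z (g : R)
    rw [hP, mul_zero, mul_comm _ z, hfg', eval₂_at_apply] at h2
    apply IsFractionRing.injective R K
    rw [h2, map_zero]
  let ev : X → R →+* ℤ := fun x => (Pi.evalRingHom (fun _ : X => ℤ) x).comp R.subtype
  have hq : ∀ x, eval₂ ((Int.castRingHom ℚ).comp (ev x)) ((ev x f : ℚ) / (ev x (g : R) : ℚ)) P = 0 := by
    intro x
    have h2 := scaleRoots_eval₂_mul (p := P) ((Int.castRingHom ℚ).comp (ev x))
      ((ev x f : ℚ) / (ev x (g : R) : ℚ)) (g : R)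
    have h3 : (ev x (g : R) : ℚ) ≠ 0 := Int.cast_ne_zero.2 (hg0 x)
    have h4 : ((Int.castRingHom ℚ).comp (ev x)) (g : R) * ((ev x f : ℚ) / (ev x (g : R) : ℚ)) =
        ((Int.castRingHom ℚ).comp (ev x)) f := by
      show (ev x (g : R) : ℚ) * ((ev x f : ℚ) / (ev x (g : R) : ℚ)) = (ev x f : ℚ)
      rw [mul_div_cancel₀ _ h3]
    rw [h4, eval₂_at_apply, h1, map_zero] at h2
    have h5 : ((Int.castRingHom ℚ).comp (ev x)) (g : R) ^ P.natDegree ≠ 0 := pow_ne_zero _ h3
    exact (mul_eq_zero.1 h2.symm).resolve_left h5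
  have hint : ∀ x, ∃ m : ℤ, (m : ℚ) = (ev x f : ℚ) / (ev x (g : R) : ℚ) := by
    intro x
    have h2 : IsIntegral ℤ ((ev x f : ℚ) / (ev x (g : R) : ℚ)) := by
      refine ⟨P.map (ev x), hPm.map _, ?_⟩
      rw [eval₂_map]
      exact hq x
    exact IsIntegrallyClosed.isIntegral_iff.1 h2
  choose y hy using hint
  have hyf : y * ((g : R) : X → ℤ) = (f : X → ℤ) := by
    funext x
    have h3 : (ev x (g : R) : ℚ) ≠ 0 := Int.cast_ne_zero.2 (hg0 x)
    have h4 : (y x : ℚ) * (ev x (g : R) : ℚ) = (ev x f : ℚ) := by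
      rw [hy x, div_mul_cancel₀ _ h3]
    exact_mod_cast h4
  have hyi : IsIntegral R y := by
    refine ⟨P, hPm, ?_⟩
    funext x
    have h2 : Pi.evalRingHom (fun _ : X => ℤ) x (eval₂ (algebraMap R (X → ℤ)) y P) =
        eval₂ (ev x) (y x) P := hom_eval₂ P _ _ _
    have h3 : ((eval₂ (ev x) (y x) P : ℤ) : ℚ) = 0 := by
      have h4 := hom_eval₂ P (ev x) (Int.castRingHom ℚ) (y x)
      have h5 : (Int.castRingHom ℚ) (y x) = (ev x f : ℚ) / (ev x (g : R) : ℚ) := hy x
      rw [h5, hq x] at h4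
      exact h4
    show Pi.evalRingHom (fun _ : X => ℤ) x (eval₂ (algebraMap R (X → ℤ)) y P) = 0
    rw [h2]
    exact_mod_cast h3
  have hyR : y ∈ R := h _ _ y f.2 (g : R).2 hg0 hyf hyi
  refine ⟨⟨y, hyR⟩, ?_⟩
  have h8 : (⟨y, hyR⟩ : R) * (g : R) = f := Subtype.ext hyf
  apply hgu.mul_right_cancel
  rw [hfg', ← h8, map_mul]

end Pool.Agent.MPN
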