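import Mathlib

set_option autoImplicit false

/-!
Rings of integer valued functions which are closed under minimal polynomials.
-/

namespace Pool.Agent.MPN

open Polynomial

/-- the matrix `A` at the point `x`, over the rational numbers -/
def at' {X ι : Type} (A : ι → ι → X → ℤ) (x : X) : Matrix ι ι ℚ :=
  Matrix.of fun i j => ((A i j x : ℤ) : ℚ)

/-- `R` is closed under minimal polynomials: for every square matrix with entries in `R` the
coefficients of the minimal polynomial are in `R`. -/
def MinPolyClosed {X : Type} (R : Subring (X → ℤ)) : Prop :=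
  ∀ (ι : Type) [Fintype ι] [DecidableEq ι] (A : ι → ι → X → ℤ), (∀ i j, A i j ∈ R) →
    ∀ k : ℕ, ∃ m ∈ R, ∀ x, ((m x : ℤ) : ℚ) = (minpoly ℚ (at' A x)).coeff k

/-- the indicator of the set of the zeros of `f` -/
def zi {X : Type} (f : X → ℤ) : X → ℤ := fun x => if f x = 0 then 1 else 0

/-- `R` contains the indicator of the set of the zeros of each of its elements. -/
def ZeroInd {X : Type} (R : Subring (X → ℤ)) : Prop := ∀ f ∈ R, zi f ∈ R

/-- closed under integral exact quotients -/
def QuoClosed {X : Type} (R : Subring (X → ℤ)) : Prop :=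
  ∀ f g y : X → ℤ, f ∈ R → g ∈ R → (∀ x, g x ≠ 0) → y * g = f → IsIntegral R y → y ∈ R

end Pool.Agent.MPN
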