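import Pool.Agent.MPN.Comp
import Pool.Agent.MPN.Defs

set_option autoImplicit false

/-!
Closed under minimal polynomials => closed under integral exact quotients.
-/

namespace Pool.Agent.MPN

open Polynomial

/-- evaluation at a point, with rational values -/
noncomputable def ev {Ω : Type} (R : Subring (Ω → ℤ)) (x : Ω) : R →+* ℚ :=
  (Int.castRingHom ℚ).comp ((Pi.evalRingHom (fun _ : Ω => ℤ) x).comp R.subtype)

theorem ev_apply {Ω : Type} (R : Subring (Ω → ℤ)) (x : Ω) (r : R) :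
    ev R x r = (((r : Ω → ℤ) x : ℤ) : ℚ) := rfl

private theorem comp_map {K K' : Type} [CommRing K] [CommRing K'] (φ : K →+* K') (d : ℕ)
    (c : Fin d → K) : (comp d c).map φ = comp d (fun i => φ (c i)) := by
  ext i j
  simp only [comp, Matrix.map_apply, Matrix.of_apply]
  split_ifs <;> simp

private theorem key {P : ℚ[X]} (hP : P.Monic) (hd : 0 < P.natDegree) {g q : ℚ} (hg : g ≠ 0)
    (hq : P.eval q = 0) {Q : ℚ[X]} (hQ : Q = X ^ 2 * P + (C g * X - C (g * q))) :
    q = (minpoly ℚ (Matrix.fromBlocks (comp P.natDegree fun i => P.coeff i) 0 0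
      (comp (P.natDegree + 2) fun i => Q.coeff i))).coeff (2 * P.natDegree)
        - P.coeff (P.natDegree - 1) - Q.coeff (P.natDegree + 1) := by
  obtain ⟨T, hT⟩ := dvd_iff_isRoot.2 (show P.IsRoot q from hq)
  have hXq : (X - C q : ℚ[X]).Monic := monic_X_sub_C q
  have hTm : T.Monic := Monic.of_mul_monic_left hXq (hT ▸ hP)
  have hXP : (X ^ 2 * P).Monic := (monic_X_pow 2).mul hP
  have hXPd : (X ^ 2 * P).natDegree = P.natDegree + 2 := by
    rw [(monic_X_pow 2).natDegree_mul hP, natDegree_X_pow, add_comm]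
  have hlow : (C g * X - C (g * q)).degree < (X ^ 2 * P).degree := by
    have h1 : (C g * X - C (g * q) : ℚ[X]).degree ≤ 1 := by
      refine (degree_sub_le _ _).trans ?_
      refine max_le (degree_C_mul_X_le g) (degree_C_le.trans ?_)
      exact zero_le_one
    refine lt_of_le_of_lt h1 ?_
    rw [degree_eq_natDegree hXP.ne_zero, hXPd]
    exact_mod_cast (show 1 < P.natDegree + 2 by omega)
  have hQm : Q.Monic := by
    rw [hQ]
    exact hXP.add_of_left hlow
  have hQd : Q.natDegree = P.natDegree + 2 := by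
    rw [hQ, natDegree_add_eq_left_of_degree_lt hlow, hXPd]
  set S : ℚ[X] := X ^ 2 * T + C g with hS
  have hQS : Q = (X - C q) * S := by
    rw [hQ, hS, hT]
    rw [C_mul]
    ring
  have hSm : S.Monic := Monic.of_mul_monic_left hXq (hQS ▸ hQm)
  have hcop : IsCoprime T S := by
    refine ⟨-(C g⁻¹ * X ^ 2), C g⁻¹, ?_⟩
    have h1 : C g⁻¹ * C g = (1 : ℚ[X]) := by
      rw [← C_mul, inv_mul_cancel₀ hg, C_1]
    rw [hS]
    calc -(C g⁻¹ * X ^ 2) * T + C g⁻¹ * (X ^ 2 * T + C g) = C g⁻¹ * C g := by ring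
      _ = 1 := h1
  have hM : minpoly ℚ (comp P.natDegree fun i => P.coeff i) = (X - C q) * T := by
    rw [minpoly_comp hP rfl]
    exact hT
  have hN : minpoly ℚ (comp (P.natDegree + 2) fun i => Q.coeff i) = (X - C q) * S := by
    rw [minpoly_comp hQm hQd]
    exact hQS
  rw [minpoly_blocks _ _ hXq hTm hSm hM hN hcop]
  have hdP : P.natDegree = 1 + T.natDegree := by
    conv_lhs => rw [hT]
    rw [hXq.natDegree_mul hTm, natDegree_X_sub_C]
  have hdQ : P.natDegree + 2 = 1 + S.natDegree := by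
    rw [← hQd]
    conv_lhs => rw [hQS]
    rw [hXq.natDegree_mul hSm, natDegree_X_sub_C]
  have hdL : ((X - C q) * T * S).natDegree = 2 * P.natDegree + 1 := by
    rw [(hXq.mul hTm).natDegree_mul hSm, hXq.natDegree_mul hTm, natDegree_X_sub_C]
    omega
  have e1 : ((X - C q) * T * S).coeff (2 * P.natDegree) = ((X - C q) * T * S).nextCoeff := by
    rw [nextCoeff_of_natDegree_pos (by omega), hdL, Nat.add_sub_cancel]
  have e2 : P.coeff (P.natDegree - 1) = P.nextCoeff := by
    rw [nextCoeff_of_natDegree_pos hd]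
  have e3 : Q.coeff (P.natDegree + 1) = Q.nextCoeff := by
    rw [nextCoeff_of_natDegree_pos (by omega), hQd]
    rfl
  rw [e1, e2, e3, (hXq.mul hTm).nextCoeff_mul hSm, hXq.nextCoeff_mul hTm]
  have e4 : P.nextCoeff = (X - C q).nextCoeff + T.nextCoeff := by
    conv_lhs => rw [hT]
    rw [hXq.nextCoeff_mul hTm]
  have e5 : Q.nextCoeff = (X - C q).nextCoeff + S.nextCoeff := by
    conv_lhs => rw [hQS]
    rw [hXq.nextCoeff_mul hSm]
  rw [e4, e5, nextCoeff_X_sub_C]
  ring

theorem quoClosed {Ω : Type} {R : Subring (Ω → ℤ)} (h : MinPolyClosed R) : QuoClosed R := by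
  intro f g y hf hg hg0 hfg hy
  rcases isEmpty_or_nonempty Ω with hΩ | ⟨⟨x0⟩⟩
  · have h1 : y = f := funext fun x => hΩ.elim x
    rw [h1]
    exact hf
  have hR : Nontrivial R := by
    refine ⟨⟨0, 1, ?_⟩⟩
    intro h1
    have h2 := congrArg (ev R x0) h1
    rw [map_zero, map_one] at h2
    exact zero_ne_one h2
  obtain ⟨P0, hP0m, hP0⟩ := hy
  obtain ⟨P, hPm, hPe, hPd⟩ : ∃ P : R[X], P.Monic ∧ eval₂ (algebraMap R (Ω → ℤ)) y P = 0 ∧
      0 < P.natDegree := by
    refine ⟨X * P0, monic_X.mul hP0m, ?_, ?_⟩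
    · rw [eval₂_mul, hP0, mul_zero]
    · rw [monic_X.natDegree_mul hP0m, natDegree_X]
      omega
  set f' : R := ⟨f, hf⟩ with hf'
  set g' : R := ⟨g, hg⟩ with hg'
  set d : ℕ := P.natDegree with hd
  set Q : R[X] := X ^ 2 * P + (C g' * X - C f') with hQ
  set B : Matrix (Fin d ⊕ Fin (d + 2)) (Fin d ⊕ Fin (d + 2)) R :=
    Matrix.fromBlocks (comp d fun i => P.coeff i) 0 0 (comp (d + 2) fun i => Q.coeff i) with hB
  obtain ⟨m, hm, hmx⟩ := h (Fin d ⊕ Fin (d + 2)) (fun i j => (B i j : Ω → ℤ))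
    (fun i j => (B i j).2) (2 * d)
  have hy : y = m - (P.coeff (d - 1) : Ω → ℤ) - (Q.coeff (d + 1) : Ω → ℤ) := by
    funext x
    have h1 : at' (fun i j => (B i j : Ω → ℤ)) x = B.map (ev R x) := rfl
    have h2 : B.map (ev R x) = Matrix.fromBlocks (comp d fun i => (P.map (ev R x)).coeff i) 0 0
        (comp (d + 2) fun i => (Q.map (ev R x)).coeff i) := by
      rw [hB, Matrix.fromBlocks_map, comp_map, comp_map]
      simp only [coeff_map]
      congr 1 <;> (ext i j; simp)
    have hPxm : (P.map (ev R x)).Monic := hPm.map _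
    have hPxd : (P.map (ev R x)).natDegree = d := hPm.natDegree_map _
    have hev : (P.map (ev R x)).eval ((y x : ℤ) : ℚ) = 0 := by
      rw [eval_map]
      have h3 := congrArg ((Int.castRingHom ℚ).comp (Pi.evalRingHom (fun _ : Ω => ℤ) x)) hPe
      rw [hom_eval₂, map_zero] at h3
      exact h3
    have hQx : Q.map (ev R x) = X ^ 2 * P.map (ev R x) + (C ((g x : ℤ) : ℚ) * X -
        C (((g x : ℤ) : ℚ) * ((y x : ℤ) : ℚ))) := by
      rw [hQ]
      simp only [Polynomial.map_add, Polynomial.map_mul, Polynomial.map_sub, Polynomial.map_pow,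
        map_X, map_C, ev_apply]
      have h4 : f x = g x * y x := by
        rw [← hfg]
        exact mul_comm _ _
      rw [hf', hg']
      show _ + (C ((g x : ℤ) : ℚ) * X - C ((f x : ℤ) : ℚ)) = _
      rw [h4, Int.cast_mul]
    have h5 := key hPxm (by rw [hPxd]; exact hPd) (g := ((g x : ℤ) : ℚ))
      (by exact_mod_cast hg0 x) hev hQx
    rw [hPxd, ← h2, ← h1, ← hmx x, coeff_map, coeff_map, ev_apply, ev_apply] at h5
    have h6 : y x = m x - (P.coeff (d - 1) : Ω → ℤ) x - (Q.coeff (d + 1) : Ω → ℤ) x := by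
      exact_mod_cast h5
    exact h6
  rw [hy]
  exact R.sub_mem (R.sub_mem hm (P.coeff (d - 1)).2) (Q.coeff (d + 1)).2

end Pool.Agent.MPN
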