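import Pool.Agent.MPN.Ind
import Pool.Agent.MPN.Quo
import Pool.Agent.MPN.Close
import Pool.Agent.MPN.IC
import Pool.Agent.MPN.ExA
import Pool.Agent.MPN.ExB

set_option autoImplicit false

/-!
The criterion, and one explicit consequence.
-/

namespace Pool.Agent.MPN

theorem minPolyClosed_iff {Ω : Type} (R : Subring (Ω → ℤ)) :
    MinPolyClosed R ↔ ZeroInd R ∧ IsIntegrallyClosed R :=
  ⟨fun h => ⟨zeroInd h, ic_of_quo (zeroInd h) (quoClosed h)⟩,
    fun h => minPolyClosed h.1 (quo_of_ic h.2)⟩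

/-- if `q ^ 2` and `q ^ 3` are in `R` then `q` is in `R` -/
theorem cusp {Ω : Type} {R : Subring (Ω → ℤ)} (h : MinPolyClosed R) {q : Ω → ℤ}
    (h2 : q ^ 2 ∈ R) (h3 : q ^ 3 ∈ R) : q ∈ R := by
  refine quoClosed h (q ^ 3) (q ^ 2 + zi (q ^ 2)) q h3
    (R.add_mem h2 (zeroInd h _ h2)) ?_ ?_ ?_
  · intro x
    show q x ^ 2 + zi (q ^ 2) x ≠ 0
    unfold zi
    split_ifs with h0
    · have h1 : q x ^ 2 = 0 := h0
      rw [h1]
      norm_num
    · rw [add_zero]
      exact h0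
  · funext x
    show q x * (q x ^ 2 + zi (q ^ 2) x) = q x ^ 3
    unfold zi
    split_ifs with h0
    · have h1 : q x ^ 2 = 0 := h0
      have h4 : q x = 0 := by simpa using h1
      rw [h4]
      norm_num
    · ring
  · refine ⟨Polynomial.X ^ 2 - Polynomial.C (⟨_, h2⟩ : R),
      Polynomial.monic_X_pow_sub_C _ (by norm_num), ?_⟩
    rw [Polynomial.eval₂_sub, Polynomial.eval₂_X_pow, Polynomial.eval₂_C]
    funext n
    show q n ^ 2 - q n ^ 2 = 0
    ring

end Pool.Agent.MPN
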