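import Mathlib

set_option autoImplicit false

/-!
MPN-BarA. No polynomial in the entries gives the sum of the two eigenvalues of all matrices
`a + u vᵀ`: with `gen P = P(a I + u vᵀ) + 2 a + u ⬝ v` one has `gen P ≠ 0` for matrices of order at least three.
-/

namespace Pool.Agent.MPN

open MvPolynomial

/-- `P(a I + u vᵀ) + 2 a + u ⬝ v` as a polynomial in the variables `a`, `u i`, `v i` -/
noncomputable def gen {n : ℕ} (P : MvPolynomial (Fin n × Fin n) ℂ) :
    MvPolynomial (Option (Fin n ⊕ Fin n)) ℂ :=
  aeval (fun p : Fin n × Fin n =>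
    ((if p.1 = p.2 then X none else 0) + X (some (Sum.inl p.1)) * X (some (Sum.inr p.2)) :
      MvPolynomial (Option (Fin n ⊕ Fin n)) ℂ)) P +
    (2 * X none + ∑ i : Fin n, X (some (Sum.inl i)) * X (some (Sum.inr i)))

private theorem barA_eval {σ τ : Type*} (w : τ → ℂ) (f : σ → MvPolynomial τ ℂ) (P : MvPolynomial σ ℂ) :
    eval w (aeval f P) = eval (fun i => eval w (f i)) P := by
  induction P using MvPolynomial.induction_on with
  | C a => simp
  | add p q hp hq => rw [map_add, map_add, map_add, hp, hq]
  | mul_X p i hp => rw [map_mul, map_mul, map_mul, hp, aeval_X, eval_X]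

private theorem barA_peval {σ : Type*} (t : ℂ) (f : σ → Polynomial ℂ) (P : MvPolynomial σ ℂ) :
    Polynomial.eval t (aeval f P) = eval (fun i => Polynomial.eval t (f i)) P := by
  induction P using MvPolynomial.induction_on with
  | C a => simp
  | add p q hp hq => simp [hp, hq]
  | mul_X p i hp => simp [hp]

/-- the value of `gen P` -/
private theorem barA_gen_eval {n : ℕ} (P : MvPolynomial (Fin n × Fin n) ℂ) (w : Option (Fin n ⊕ Fin n) → ℂ) :
    eval w (gen P) = eval (fun p : Fin n × Fin n => (if p.1 = p.2 then w none else 0) +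
      w (some (Sum.inl p.1)) * w (some (Sum.inr p.2))) P +
      (2 * w none + ∑ i : Fin n, w (some (Sum.inl i)) * w (some (Sum.inr i))) := by
  rw [gen, map_add, barA_eval]
  congr 1
  · congr 2
    funext p
    split_ifs <;> simp
  · simp

private theorem barA_taylor {σ : Type*} [Fintype σ] [DecidableEq σ] (c m : σ → ℂ) (P : MvPolynomial σ ℂ) :
    (aeval (fun i => Polynomial.C (c i) + Polynomial.X * Polynomial.C (m i)) P : Polynomial ℂ).coeff 0 = eval c P ∧
    (aeval (fun i => Polynomial.C (c i) + Polynomial.X * Polynomial.C (m i)) P : Polynomial ℂ).coeff 1 =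
      ∑ i, m i * eval c (pderiv i P) := by
  induction P using MvPolynomial.induction_on with
  | C a =>
    constructor
    · simp
    · simp [Polynomial.coeff_C]
  | add p q hp hq =>
    constructor
    · rw [map_add, Polynomial.coeff_add, hp.1, hq.1, map_add]
    · rw [map_add, Polynomial.coeff_add, hp.2, hq.2, ← Finset.sum_add_distrib]
      refine Finset.sum_congr rfl fun i _ => ?_
      rw [map_add, map_add]
      ring
  | mul_X p j hp =>
    have e0 : (Polynomial.C (c j) + Polynomial.X * Polynomial.C (m j) : Polynomial ℂ).coeff 0 = c j := by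
      simp
    have e1 : (Polynomial.C (c j) + Polynomial.X * Polynomial.C (m j) : Polynomial ℂ).coeff 1 = m j := by
      simp [Polynomial.coeff_C]
    constructor
    · rw [map_mul, aeval_X, Polynomial.mul_coeff_zero, hp.1, e0, map_mul, eval_X]
    · rw [map_mul, aeval_X, Polynomial.mul_coeff_one, hp.1, hp.2, e0, e1]
      have e2 : ∀ i, m i * eval c (pderiv i (p * X j)) =
          m i * (eval c p * ((Pi.single i (1 : ℂ) : σ → ℂ) j)) + (m i * eval c (pderiv i p)) * c j := by
        intro i
        rw [Derivation.leibniz, map_add, smul_eq_mul, smul_eq_mul, map_mul, map_mul, eval_X, pderiv_X]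
        have : eval c ((Pi.single i (1 : MvPolynomial σ ℂ) : σ → MvPolynomial σ ℂ) j) =
            (Pi.single i (1 : ℂ) : σ → ℂ) j := by
          by_cases h : j = i
          · subst h; simp
          · simp [Pi.single_eq_of_ne h]
        rw [this]
        ring
      rw [Finset.sum_congr rfl fun i _ => e2 i, Finset.sum_add_distrib, ← Finset.sum_mul]
      congr 1
      rw [Finset.sum_eq_single j]
      · simp; ring
      · intro i _ hi
        rw [Pi.single_eq_of_ne (Ne.symm hi)]
        simp
      · intro h; exact absurd (Finset.mem_univ j) h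

theorem gen_ne_zero {n : ℕ} (hn : 3 ≤ n) (P : MvPolynomial (Fin n × Fin n) ℂ) : gen P ≠ 0 := by
  intro h0
  have hval : ∀ w : Option (Fin n ⊕ Fin n) → ℂ,
      eval (fun p : Fin n × Fin n => (if p.1 = p.2 then w none else 0) +
        w (some (Sum.inl p.1)) * w (some (Sum.inr p.2))) P =
      -(2 * w none + ∑ i : Fin n, w (some (Sum.inl i)) * w (some (Sum.inr i))) := by
    intro w
    have := barA_gen_eval P w
    rw [h0, map_zero] at this
    linear_combination -this
  set c : Fin n × Fin n → ℂ := fun p => if p.1 = p.2 then 1 else 0 with hc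
  have hdiag : ∀ i : Fin n, eval c (pderiv (i, i) P) = -1 := by
    intro i
    set m : Fin n × Fin n → ℂ := fun p => if p = (i, i) then 1 else 0 with hm
    have hp : (aeval (fun p => Polynomial.C (c p) + Polynomial.X * Polynomial.C (m p)) P : Polynomial ℂ) =
        -(Polynomial.C 2 + Polynomial.X) := by
      refine Polynomial.funext fun t => ?_
      rw [barA_peval]
      have h1 := hval (fun o => match o with
        | none => 1
        | some (Sum.inl k) => if k = i then t else 0
        | some (Sum.inr k) => if k = i then 1 else 0)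
      simp only at h1
      have h2 : (fun p : Fin n × Fin n => Polynomial.eval t (Polynomial.C (c p) + Polynomial.X * Polynomial.C (m p))) =
          (fun p : Fin n × Fin n => (if p.1 = p.2 then (1 : ℂ) else 0) +
            (if p.1 = i then t else 0) * (if p.2 = i then (1 : ℂ) else 0)) := by
        funext p
        simp only [Polynomial.eval_add, Polynomial.eval_C, Polynomial.eval_mul, Polynomial.eval_X, hc, hm]
        congr 1
        by_cases h3 : p.1 = i
        · by_cases h4 : p.2 = i
          · have : p = (i, i) := Prod.ext h3 h4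
            simp [this]
          · have : p ≠ (i, i) := fun h => h4 (by rw [h])
            simp [this, h4]
        · have : p ≠ (i, i) := fun h => h3 (by rw [h])
          simp [this, h3]
      rw [h2, h1]
      simp
    have ht := (barA_taylor c m P).2
    rw [hp] at ht
    have e1 : (-(Polynomial.C 2 + Polynomial.X) : Polynomial ℂ).coeff 1 = -1 := by
      simp [Polynomial.coeff_C]
    rw [e1] at ht
    rw [Finset.sum_eq_single (i, i)] at ht
    · simp only [hm, if_true, one_mul] at ht
      exact ht.symm
    · intro p _ hp'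
      simp [hm, hp']
    · intro h; exact absurd (Finset.mem_univ _) h
  have hp : (aeval (fun p => Polynomial.C (c p) + Polynomial.X * Polynomial.C (c p)) P : Polynomial ℂ) =
      -(Polynomial.C 2 * (1 + Polynomial.X)) := by
    refine Polynomial.funext fun t => ?_
    rw [barA_peval]
    have h1 := hval (fun o => match o with
      | none => 1 + t
      | some (Sum.inl _) => 0
      | some (Sum.inr _) => 0)
    simp only at h1
    have h2 : (fun p : Fin n × Fin n => Polynomial.eval t (Polynomial.C (c p) + Polynomial.X * Polynomial.C (c p))) =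
        (fun p : Fin n × Fin n => (if p.1 = p.2 then (1 + t : ℂ) else 0) + 0 * 0) := by
      funext p
      simp only [Polynomial.eval_add, Polynomial.eval_C, Polynomial.eval_mul, Polynomial.eval_X, hc]
      split_ifs <;> simp
    rw [h2, h1]
    simp
  have ht := (barA_taylor c c P).2
  rw [hp] at ht
  have e1 : (-(Polynomial.C 2 * (1 + Polynomial.X)) : Polynomial ℂ).coeff 1 = -2 := by
    rw [Polynomial.coeff_neg, Polynomial.coeff_C_mul, Polynomial.coeff_add]
    simp [Polynomial.coeff_one]
  rw [e1, Fintype.sum_prod_type] at ht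
  have e2 : ∀ i : Fin n, ∑ j : Fin n, c (i, j) * eval c (pderiv (i, j) P) = -1 := by
    intro i
    rw [Finset.sum_eq_single i]
    · simp only [hc, if_true, one_mul]
      exact hdiag i
    · intro j _ hj
      simp [hc, Ne.symm hj]
    · intro h; exact absurd (Finset.mem_univ _) h
  rw [Finset.sum_congr rfl fun i _ => e2 i] at ht
  simp only [Finset.sum_const, Finset.card_univ, Fintype.card_fin, smul_neg, nsmul_eq_mul, mul_one] at ht
  have h3 : (n : ℂ) = 2 := by linear_combination ht
  have h4 : n = 2 := by exact_mod_cast h3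
  omega

theorem gen_degree {n D : ℕ} (hD : 1 ≤ D) (P : MvPolynomial (Fin n × Fin n) ℂ)
    (hP : P.totalDegree ≤ D) : (gen P).totalDegree ≤ 2 * D := by
  have hX : ∀ i j : Option (Fin n ⊕ Fin n),
      (X i * X j : MvPolynomial (Option (Fin n ⊕ Fin n)) ℂ).totalDegree ≤ 2 := fun i j =>
    (totalDegree_mul _ _).trans (by rw [totalDegree_X, totalDegree_X])
  have hf : ∀ p : Fin n × Fin n, ((if p.1 = p.2 then X none else 0) +
      X (some (Sum.inl p.1)) * X (some (Sum.inr p.2)) :
      MvPolynomial (Option (Fin n ⊕ Fin n)) ℂ).totalDegree ≤ 2 := by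
    intro p
    refine (totalDegree_add _ _).trans (max_le ?_ (hX _ _))
    split_ifs
    · rw [totalDegree_X]; omega
    · rw [totalDegree_zero]; omega
  refine (totalDegree_add _ _).trans (max_le ?_ ?_)
  · rw [aeval_def, eval₂_eq']
    refine totalDegree_finsetSum_le fun d hd => ?_
    refine (totalDegree_mul _ _).trans ?_
    have h1 : (algebraMap ℂ (MvPolynomial (Option (Fin n ⊕ Fin n)) ℂ) (P.coeff d)).totalDegree = 0 :=
      totalDegree_C _
    rw [h1, zero_add]
    refine (totalDegree_finset_prod _ _).trans ?_
    calc _ ≤ ∑ p : Fin n × Fin n, d p * 2 := by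
          refine Finset.sum_le_sum fun p _ => ?_
          exact (totalDegree_pow _ _).trans (Nat.mul_le_mul_left _ (hf p))
      _ = 2 * ∑ p : Fin n × Fin n, d p := by rw [← Finset.sum_mul, mul_comm]
      _ ≤ 2 * D := by
          refine Nat.mul_le_mul_left _ (le_trans ?_ hP)
          have := le_totalDegree hd
          rwa [Finsupp.sum_fintype _ _ (fun _ => rfl)] at this
  · refine le_trans ?_ (Nat.mul_le_mul_left 2 hD)
    refine (totalDegree_add _ _).trans (max_le ?_ ?_)
    · refine (totalDegree_mul _ _).trans ?_
      have h1 : (2 : MvPolynomial (Option (Fin n ⊕ Fin n)) ℂ).totalDegree = 0 := by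
        have : (2 : MvPolynomial (Option (Fin n ⊕ Fin n)) ℂ) = C 2 := (map_ofNat C 2).symm
        rw [this, totalDegree_C]
      rw [h1, totalDegree_X]
      omega
    · exact totalDegree_finsetSum_le fun i _ => hX _ _

/-- the value of `gen P` -/
theorem gen_eval {n : ℕ} (P : MvPolynomial (Fin n × Fin n) ℂ) (w : Option (Fin n ⊕ Fin n) → ℂ) :
    eval w (gen P) = eval (fun p : Fin n × Fin n => (if p.1 = p.2 then w none else 0) +
      w (some (Sum.inl p.1)) * w (some (Sum.inr p.2))) P +
      (2 * w none + ∑ i : Fin n, w (some (Sum.inl i)) * w (some (Sum.inr i))) :=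
  barA_gen_eval P w

end Pool.Agent.MPN
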