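import Mathlib

set_option autoImplicit false

/-!
MPN-BarB. The minimal polynomial of `a + u vᵀ`, when `u ⬝ᵥ v ≠ 0` and the size is at least two, is
`(X - a) (X - a - u ⬝ᵥ v)`.
-/

namespace Pool.Agent.MPN

open Polynomial Matrix

private theorem barb_not_scalar {n : ℕ} (hn : 2 ≤ n) (u v : Fin n → ℚ) (hs : u ⬝ᵥ v ≠ 0) (d : ℚ)
    (h : ∀ i j, u i * v j = if i = j then d else 0) : False := by
  have h00 := h ⟨0, by omega⟩ ⟨0, by omega⟩
  have h11 := h ⟨1, by omega⟩ ⟨1, by omega⟩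
  have h01 := h ⟨0, by omega⟩ ⟨1, by omega⟩
  rw [if_pos rfl] at h00 h11
  rw [if_neg (by intro h2; have := congrArg Fin.val h2; simp at this)] at h01
  have hd : d = 0 := by
    have : d * d = 0 := by
      calc d * d = (u ⟨0, by omega⟩ * v ⟨0, by omega⟩) * (u ⟨1, by omega⟩ * v ⟨1, by omega⟩) := by
            rw [h00, h11]
        _ = (u ⟨0, by omega⟩ * v ⟨1, by omega⟩) * (u ⟨1, by omega⟩ * v ⟨0, by omega⟩) := by ring
        _ = 0 := by rw [h01, zero_mul]
    exact mul_self_eq_zero.1 this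
  apply hs
  unfold dotProduct
  refine Finset.sum_eq_zero fun i _ => ?_
  rw [h i i, if_pos rfl, hd]

theorem minpoly_rank_one {n : ℕ} (hn : 2 ≤ n) (a : ℚ) (u v : Fin n → ℚ) (hs : u ⬝ᵥ v ≠ 0) :
    minpoly ℚ (a • (1 : Matrix (Fin n) (Fin n) ℚ) + Matrix.vecMulVec u v) =
      (X - C a) * (X - C (a + u ⬝ᵥ v)) := by
  set W := Matrix.vecMulVec u v with hW
  set s := u ⬝ᵥ v with hsdef
  set A := a • (1 : Matrix (Fin n) (Fin n) ℚ) + W with hA
  have hWW : W * W = s • W := by
    rw [hW]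
    ext i j
    simp only [Matrix.mul_apply, Matrix.vecMulVec_apply, Matrix.smul_apply, smul_eq_mul]
    rw [hsdef]
    unfold dotProduct
    rw [Finset.sum_mul]
    refine Finset.sum_congr rfl fun k _ => ?_
    ring
  have hint : IsIntegral ℚ A := Algebra.IsIntegral.isIntegral A
  have hmon : ((X - C a) * (X - C (a + s)) : ℚ[X]).Monic := (monic_X_sub_C a).mul (monic_X_sub_C _)
  have hdeg : ((X - C a) * (X - C (a + s)) : ℚ[X]).natDegree = 2 := by
    rw [Monic.natDegree_mul (monic_X_sub_C a) (monic_X_sub_C _), natDegree_X_sub_C,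
      natDegree_X_sub_C]
  have hz : aeval A ((X - C a) * (X - C (a + s)) : ℚ[X]) = 0 := by
    rw [map_mul, map_sub, map_sub, aeval_X, aeval_C, aeval_C, Algebra.algebraMap_eq_smul_one,
      Algebra.algebraMap_eq_smul_one, hA, add_smul]
    have h1 : a • (1 : Matrix (Fin n) (Fin n) ℚ) + W - a • 1 = W := by abel
    have h2 : a • (1 : Matrix (Fin n) (Fin n) ℚ) + W - (a • 1 + s • 1) = W - s • 1 := by abel
    rw [h1, h2, mul_sub, hWW, mul_smul_comm, mul_one, sub_self]
  have hdvd : minpoly ℚ A ∣ (X - C a) * (X - C (a + s)) := minpoly.dvd ℚ A hz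
  have hn0 : Nonempty (Fin n) := ⟨⟨0, by omega⟩⟩
  have h2 : 2 ≤ (minpoly ℚ A).natDegree := by
    rw [minpoly.two_le_natDegree_iff hint]
    rintro ⟨c, hc⟩
    refine barb_not_scalar hn u v hs (c - a) fun i j => ?_
    have h3 := congrFun (congrFun hc i) j
    rw [Algebra.algebraMap_eq_smul_one, hA, hW] at h3
    simp only [Matrix.smul_apply, Matrix.add_apply, Matrix.one_apply, Matrix.vecMulVec_apply,
      smul_eq_mul] at h3
    split_ifs at h3 ⊢ with h4
    · linarith
    · linarith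
  exact (eq_of_monic_of_dvd_of_natDegree_le (minpoly.monic hint) hmon hdvd
    (by rw [hdeg]; exact h2)).symm

end Pool.Agent.MPN
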