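import Pool.Agent.MPN.BarA
import Pool.Agent.MPN.BarB

set_option autoImplicit false

/-!
MPN-BarC. Finitely many polynomials do not give the minimal polynomial: the product of the polynomials `gen P` has a
nonzero value at a point with small positive integer coordinates.
-/

namespace Pool.Agent.MPN

open MvPolynomial

/-- the coefficient of `X` in the minimal polynomial of an integer matrix -/
noncomputable def m1 {n : ℕ} (A : Matrix (Fin n) (Fin n) ℤ) : ℚ :=
  (minpoly ℚ (A.map (Int.cast : ℤ → ℚ))).coeff 1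

theorem barrier {n : ℕ} (hn : 3 ≤ n) {N D : ℕ} (hD : 1 ≤ D)
    (Ps : Finset (MvPolynomial (Fin n × Fin n) ℂ)) (hdeg : ∀ P ∈ Ps, P.totalDegree ≤ D)
    (hcov : ∀ A : Matrix (Fin n) (Fin n) ℤ, (∀ i j, 0 ≤ A i j ∧ A i j ≤ N) →
      (∃ a b : ℤ, a ≠ b ∧ minpoly ℚ (A.map (Int.cast : ℤ → ℚ)) =
        (Polynomial.X - Polynomial.C (a : ℚ)) * (Polynomial.X - Polynomial.C (b : ℚ))) →
      ∃ P ∈ Ps, eval (fun p : Fin n × Fin n => ((A p.1 p.2 : ℤ) : ℂ)) P = ((m1 A : ℚ) : ℂ)) :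
    N < (2 * D * Ps.card + 1) ^ 2 + (2 * D * Ps.card + 1) := by
  classical
  by_contra hlt
  rw [not_lt] at hlt
  set s : ℕ := 2 * D * Ps.card + 1 with hs
  set F : MvPolynomial (Option (Fin n ⊕ Fin n)) ℂ := ∏ P ∈ Ps, gen P with hF
  have hF0 : F ≠ 0 := Finset.prod_ne_zero_iff.2 fun P _ => gen_ne_zero hn P
  have hFdeg : F.totalDegree < s := by
    have h1 : F.totalDegree ≤ ∑ P ∈ Ps, (gen P).totalDegree := MvPolynomial.totalDegree_finsetProd _ _
    have h2 : ∑ P ∈ Ps, (gen P).totalDegree ≤ ∑ _P ∈ Ps, 2 * D :=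
      Finset.sum_le_sum fun P hP => gen_degree hD P (hdeg P hP)
    rw [Finset.sum_const, smul_eq_mul] at h2
    have h3 : Ps.card * (2 * D) = 2 * D * Ps.card := mul_comm _ _
    omega
  obtain ⟨w, hw, hwF⟩ : ∃ w : Option (Fin n ⊕ Fin n) → ℂ,
      (∀ i, w i ∈ (Finset.Icc 1 s).image (Nat.cast : ℕ → ℂ)) ∧ eval w F ≠ 0 := by
    by_contra hc
    push Not at hc
    refine hF0 (MvPolynomial.eq_zero_of_eval_zero_at_prod_finset F
      (fun _ => (Finset.Icc 1 s).image (Nat.cast : ℕ → ℂ)) ?_ ?_)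
    · intro i
      rw [Finset.card_image_of_injective _ Nat.cast_injective, Nat.card_Icc, Nat.add_sub_cancel]
      exact lt_of_le_of_lt (MvPolynomial.degreeOf_le_totalDegree F i) hFdeg
    · exact fun x hx => hc x hx
  have hk : ∀ i, ∃ k : ℕ, 1 ≤ k ∧ k ≤ s ∧ (k : ℂ) = w i := by
    intro i
    obtain ⟨k, hk1, hk2⟩ := Finset.mem_image.1 (hw i)
    exact ⟨k, (Finset.mem_Icc.1 hk1).1, (Finset.mem_Icc.1 hk1).2, hk2⟩
  choose k hk1 hk2 hk3 using hk
  set A : Matrix (Fin n) (Fin n) ℤ := fun i j =>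
    (if i = j then (k none : ℤ) else 0) + (k (some (Sum.inl i)) : ℤ) * (k (some (Sum.inr j)) : ℤ) with hA
  set u : Fin n → ℚ := fun i => (k (some (Sum.inl i)) : ℚ) with hu
  set v : Fin n → ℚ := fun i => (k (some (Sum.inr i)) : ℚ) with hv
  have hbd : ∀ i j, 0 ≤ A i j ∧ A i j ≤ N := by
    intro i j
    have h1 := hk2 none
    have h2 : k (some (Sum.inl i)) * k (some (Sum.inr j)) ≤ s * s := Nat.mul_le_mul (hk2 _) (hk2 _)
    have h4 : A i j = (((if i = j then k none else 0) + k (some (Sum.inl i)) * k (some (Sum.inr j)) : ℕ) : ℤ) := by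
      simp only [hA]
      push_cast
      rfl
    have h5 : (if i = j then k none else 0) ≤ s := by
      split_ifs
      · exact h1
      · exact Nat.zero_le _
    rw [h4]
    refine ⟨Int.natCast_nonneg _, ?_⟩
    have h6 : (if i = j then k none else 0) + k (some (Sum.inl i)) * k (some (Sum.inr j)) ≤ N := by
      have h7 : s ^ 2 = s * s := sq s
      omega
    exact_mod_cast h6
  have hmap : A.map (Int.cast : ℤ → ℚ) =
      (k none : ℚ) • (1 : Matrix (Fin n) (Fin n) ℚ) + Matrix.vecMulVec u v := by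
    ext i j
    simp only [Matrix.map_apply, hA, Matrix.add_apply, Matrix.smul_apply, Matrix.one_apply, Matrix.vecMulVec_apply,
      hu, hv]
    split_ifs <;> simp
  have hdot : 0 < u ⬝ᵥ v := by
    have : Nonempty (Fin n) := ⟨⟨0, by omega⟩⟩
    refine Finset.sum_pos (fun i _ => ?_) Finset.univ_nonempty
    have h1 : (0 : ℚ) < (k (some (Sum.inl i)) : ℚ) := by exact_mod_cast hk1 (some (Sum.inl i))
    have h2 : (0 : ℚ) < (k (some (Sum.inr i)) : ℚ) := by exact_mod_cast hk1 (some (Sum.inr i))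
    exact mul_pos h1 h2
  have hmin := minpoly_rank_one (n := n) (by omega) (k none : ℚ) u v hdot.ne'
  rw [← hmap] at hmin
  have hsum : ((∑ i : Fin n, (k (some (Sum.inl i)) : ℤ) * (k (some (Sum.inr i)) : ℤ) : ℤ) : ℚ) = u ⬝ᵥ v := by
    rw [dotProduct]
    push_cast
    rfl
  obtain ⟨P, hP, hPe⟩ := hcov A hbd ⟨(k none : ℤ), (k none : ℤ) +
    ∑ i : Fin n, (k (some (Sum.inl i)) : ℤ) * (k (some (Sum.inr i)) : ℤ), by
      intro h
      have h1 : (∑ i : Fin n, (k (some (Sum.inl i)) : ℤ) * (k (some (Sum.inr i)) : ℤ) : ℤ) = 0 := by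
        linarith
      rw [h1, Int.cast_zero] at hsum
      exact hdot.ne hsum, by
      rw [hmin, Int.cast_add, hsum, Int.cast_natCast]⟩
  have hm1 : m1 A = -(2 * (k none : ℚ) + u ⬝ᵥ v) := by
    rw [m1, hmin, Polynomial.mul_coeff_one]
    simp
    ring
  apply hwF
  rw [hF, map_prod]
  refine Finset.prod_eq_zero hP ?_
  rw [gen_eval]
  have h1 : (fun p : Fin n × Fin n => (if p.1 = p.2 then w none else 0) +
      w (some (Sum.inl p.1)) * w (some (Sum.inr p.2))) =
      fun p : Fin n × Fin n => ((A p.1 p.2 : ℤ) : ℂ) := by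
    funext p
    simp only [hA, ← hk3]
    split_ifs <;> push_cast <;> ring
  rw [h1, hPe, hm1]
  have h2 : ((u ⬝ᵥ v : ℚ) : ℂ) = ∑ i : Fin n, w (some (Sum.inl i)) * w (some (Sum.inr i)) := by
    rw [dotProduct]
    push_cast
    refine Finset.sum_congr rfl fun i _ => ?_
    simp only [hu, hv, ← hk3]
    push_cast
    rfl
  push_cast
  rw [h2, ← hk3 none]
  ring

end Pool.Agent.MPN
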