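import Mathlib

set_option autoImplicit false

/-!
MPN-Comp. Companion matrices, minimal polynomials of block diagonal matrices. Mathlib only.

`minpoly_comp`: the companion matrix of a monic polynomial `P` is the matrix of the multiplication by the root
in `AdjoinRoot P`, so its minimal polynomial is `P`.
`minpoly_blocks`: the minimal polynomial of a block diagonal matrix is the least common multiple of the minimal
polynomials of the blocks.
-/

namespace Pool.Agent.MPN

open Polynomial

/-- companion matrix of `X ^ d + ∑ i, c i * X ^ i` -/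
def comp {K : Type} [CommRing K] (d : ℕ) (c : Fin d → K) : Matrix (Fin d) (Fin d) K :=
  Matrix.of fun i j => if (j : ℕ) + 1 = d then -c i else if (i : ℕ) = j + 1 then 1 else 0

theorem minpoly_comp {K : Type} [Field K] {P : K[X]} (hP : P.Monic) {d : ℕ}
    (hd : P.natDegree = d) : minpoly K (comp d fun i => P.coeff i) = P := by
  subst hd
  have h1 : (comp P.natDegree fun i => P.coeff i) =
      Algebra.leftMulMatrix (AdjoinRoot.powerBasis hP.ne_zero).basis (AdjoinRoot.powerBasis hP.ne_zero).gen := by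
    rw [PowerBasis.leftMulMatrix, PowerBasis.minpolyGen_eq, AdjoinRoot.minpoly_powerBasis_gen_of_monic hP]
    rfl
  have h2 := minpoly.algHom_eq (Algebra.leftMulMatrix (AdjoinRoot.powerBasis hP.ne_zero).basis)
    (Algebra.leftMulMatrix_injective _) (AdjoinRoot.powerBasis hP.ne_zero).gen
  rw [AdjoinRoot.minpoly_powerBasis_gen_of_monic hP] at h2
  rw [h1]
  exact h2

private theorem aeval_blocks {K ι κ : Type} [Field K] [Fintype ι] [DecidableEq ι] [Fintype κ]
    [DecidableEq κ] (M : Matrix ι ι K) (N : Matrix κ κ K) (F : K[X]) :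
    aeval (Matrix.fromBlocks M 0 0 N) F = Matrix.fromBlocks (aeval M F) 0 0 (aeval N F) := by
  have hX : ∀ n : ℕ, Matrix.fromBlocks M 0 0 N ^ n = Matrix.fromBlocks (M ^ n) 0 0 (N ^ n) := by
    intro n
    induction n with
    | zero => simp only [pow_zero, Matrix.fromBlocks_one]
    | succ n ih =>
      rw [pow_succ, ih, Matrix.fromBlocks_multiply]
      simp only [Matrix.mul_zero, Matrix.zero_mul, add_zero, zero_add, pow_succ]
  induction F using Polynomial.induction_on' with
  | add p q hp hq =>
    rw [map_add, hp, hq, Matrix.fromBlocks_add, map_add, map_add, add_zero, add_zero]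
  | monomial n a =>
    simp only [aeval_monomial, hX, ← Algebra.smul_def, Matrix.fromBlocks_smul, smul_zero]

theorem minpoly_blocks {K ι κ : Type} [Field K] [Fintype ι] [DecidableEq ι] [Fintype κ]
    [DecidableEq κ] (M : Matrix ι ι K) (N : Matrix κ κ K) {Y T S : K[X]} (hY : Y.Monic)
    (hT : T.Monic) (hS : S.Monic) (hM : minpoly K M = Y * T) (hN : minpoly K N = Y * S)
    (hTS : IsCoprime T S) : minpoly K (Matrix.fromBlocks M 0 0 N) = Y * T * S := by
  have h1 : ∀ F : K[X], minpoly K (Matrix.fromBlocks M 0 0 N) ∣ F ↔ Y * T ∣ F ∧ Y * S ∣ F := by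
    intro F
    rw [minpoly.dvd_iff, aeval_blocks, ← hM, ← hN, minpoly.dvd_iff, minpoly.dvd_iff,
      ← Matrix.fromBlocks_zero, Matrix.fromBlocks_inj]
    constructor
    · rintro ⟨h, -, -, h'⟩
      exact ⟨h, h'⟩
    · rintro ⟨h, h'⟩
      exact ⟨h, rfl, rfl, h'⟩
  have h2 : minpoly K (Matrix.fromBlocks M 0 0 N) ∣ Y * T * S := by
    rw [h1]
    refine ⟨dvd_mul_right _ _, ⟨T, by ring⟩⟩
  have h3 : Y * T * S ∣ minpoly K (Matrix.fromBlocks M 0 0 N) := by
    obtain ⟨⟨A, hA⟩, hB⟩ := (h1 _).1 dvd_rfl
    rw [hA, mul_assoc] at hB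
    have h4 : S ∣ T * A := (mul_dvd_mul_iff_left hY.ne_zero).1 hB
    rw [hA]
    exact mul_dvd_mul_left (Y * T) (hTS.symm.dvd_of_dvd_mul_left h4)
  refine Polynomial.eq_of_monic_of_associated (minpoly.monic (Matrix.isIntegral _)) ((hY.mul hT).mul hS) ?_
  exact associated_of_dvd_dvd h2 h3

end Pool.Agent.MPN
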