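import Mathlib

set_option autoImplicit false

/-!
MPN-Gram. The minimal polynomial by Gram determinants and Cramer's rule. Mathlib only.

`gm A k` is the Gram matrix of `A ^ 0, ..., A ^ (k - 1)`, `gb A k` the vector of the scalar products with
`A ^ k`. The Gram determinant is not zero iff `k ≤ natDegree (minpoly ℚ A)`, and for
`k = natDegree (minpoly ℚ A)` the coefficients of the minimal polynomial are given by the adjugate.
-/

namespace Pool.Agent.MPN

open Polynomial Matrix

variable {ι : Type} [Fintype ι] [DecidableEq ι]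

/-- Gram matrix of the first `k` powers -/
def gm {K : Type} [CommRing K] (A : Matrix ι ι K) (k : ℕ) : Matrix (Fin k) (Fin k) K :=
  Matrix.of fun i j => ∑ a, ∑ b, (A ^ (i : ℕ)) a b * (A ^ (j : ℕ)) a b

/-- scalar products with the power `k` -/
def gb {K : Type} [CommRing K] (A : Matrix ι ι K) (k : ℕ) : Fin k → K :=
  fun i => ∑ a, ∑ b, (A ^ (i : ℕ)) a b * (A ^ k) a b

private theorem pow_map {K K' : Type} [CommRing K] [CommRing K'] (φ : K →+* K')
    (A : Matrix ι ι K) (n : ℕ) (a b : ι) : φ ((A ^ n) a b) = ((A.map φ) ^ n) a b := by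
  have h := map_pow φ.mapMatrix A n
  have h2 := congrArg (fun M : Matrix ι ι K' => M a b) h
  simpa using h2

private theorem gm_map {K K' : Type} [CommRing K] [CommRing K'] (φ : K →+* K')
    (A : Matrix ι ι K) (k : ℕ) : φ.mapMatrix (gm A k) = gm (A.map φ) k := by
  ext i j
  simp only [gm, RingHom.mapMatrix_apply, Matrix.map_apply, Matrix.of_apply, map_sum, map_mul,
    pow_map]

theorem det_gm_map {K K' : Type} [CommRing K] [CommRing K'] (φ : K →+* K') (A : Matrix ι ι K)
    (k : ℕ) : φ (gm A k).det = (gm (A.map φ) k).det := by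
  rw [RingHom.map_det, gm_map]

theorem adj_gm_map {K K' : Type} [CommRing K] [CommRing K'] (φ : K →+* K') (A : Matrix ι ι K)
    (k : ℕ) (i : Fin k) : φ (((gm A k).adjugate *ᵥ gb A k) i) =
      ((gm (A.map φ) k).adjugate *ᵥ gb (A.map φ) k) i := by
  have h1 : (gm A k).adjugate.map φ = (gm (A.map φ) k).adjugate := by
    rw [← gm_map φ A k, ← RingHom.map_adjugate]
    rfl
  have h2 : φ ∘ gb A k = gb (A.map φ) k := by
    funext i
    simp only [gb, Function.comp_apply, map_sum, map_mul, pow_map]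
  rw [RingHom.map_mulVec, h1, h2]

private theorem gm_mulVec (A : Matrix ι ι ℚ) (k : ℕ) (w : Fin k → ℚ) (i : Fin k) :
    (gm A k *ᵥ w) i = ∑ a, ∑ b, (A ^ (i : ℕ)) a b * (∑ j : Fin k, w j • A ^ (j : ℕ)) a b := by
  simp only [Matrix.mulVec, dotProduct, gm, Matrix.of_apply, Matrix.sum_apply, Matrix.smul_apply,
    smul_eq_mul, Finset.mul_sum, Finset.sum_mul]
  rw [Finset.sum_comm]
  refine Finset.sum_congr rfl fun a _ => ?_
  rw [Finset.sum_comm]
  refine Finset.sum_congr rfl fun b _ => ?_
  refine Finset.sum_congr rfl fun j _ => ?_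
  ring

private theorem gram_sq (A : Matrix ι ι ℚ) (k : ℕ) (w : Fin k → ℚ) :
    ∑ i, w i * (gm A k *ᵥ w) i =
      ∑ a, ∑ b, (∑ j : Fin k, w j • A ^ (j : ℕ)) a b * (∑ j : Fin k, w j • A ^ (j : ℕ)) a b := by
  set B := ∑ j : Fin k, w j • A ^ (j : ℕ) with hB
  have h1 : ∀ i, w i * (gm A k *ᵥ w) i = ∑ a, ∑ b, (w i * (A ^ (i : ℕ)) a b) * B a b := by
    intro i
    rw [gm_mulVec, ← hB, Finset.mul_sum]
    refine Finset.sum_congr rfl fun a _ => ?_
    rw [Finset.mul_sum]
    refine Finset.sum_congr rfl fun b _ => ?_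
    ring
  simp only [h1]
  rw [Finset.sum_comm]
  refine Finset.sum_congr rfl fun a _ => ?_
  rw [Finset.sum_comm]
  refine Finset.sum_congr rfl fun b _ => ?_
  rw [← Finset.sum_mul]
  congr 1
  rw [hB]
  simp only [Matrix.sum_apply, Matrix.smul_apply, smul_eq_mul]

private theorem aeval_fin (A : Matrix ι ι ℚ) {k : ℕ} (hk : (minpoly ℚ A).natDegree < k) :
    ∑ j : Fin k, (minpoly ℚ A).coeff j • A ^ (j : ℕ) = 0 := by
  have h1 := Polynomial.aeval_eq_sum_range' hk A
  rw [minpoly.aeval, Finset.sum_range] at h1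
  exact h1.symm

theorem det_gm_ne_zero (A : Matrix ι ι ℚ) (k : ℕ) :
    (gm A k).det ≠ 0 ↔ k ≤ (minpoly ℚ A).natDegree := by
  have hint : IsIntegral ℚ A := Algebra.IsIntegral.isIntegral A
  rw [← not_lt, not_iff_not, ← Matrix.exists_mulVec_eq_zero_iff]
  constructor
  · rintro ⟨w, hw, h0⟩
    have h1 := gram_sq A k w
    rw [h0] at h1
    simp only [Pi.zero_apply, mul_zero, Finset.sum_const_zero] at h1
    have hB : ∑ j : Fin k, w j • A ^ (j : ℕ) = 0 := by
      ext a b
      have h2 := (Finset.sum_eq_zero_iff_of_nonneg fun a _ =>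
        Finset.sum_nonneg fun b _ => mul_self_nonneg _).1 h1.symm a (Finset.mem_univ a)
      have h3 := (Finset.sum_eq_zero_iff_of_nonneg fun b _ => mul_self_nonneg _).1 h2 b
        (Finset.mem_univ b)
      exact mul_self_eq_zero.1 h3
    have hW : (∑ i : Fin k, C (w i) * X ^ (i : ℕ) : ℚ[X]) ≠ 0 := by
      intro hz
      apply hw
      funext i
      have h4 := congrArg (fun p : ℚ[X] => p.coeff (i : ℕ)) hz
      simp only [Polynomial.finsetSum_coeff, Polynomial.coeff_C_mul_X_pow, Polynomial.coeff_zero,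
        Fin.val_inj] at h4
      simpa using h4
    have hdvd : minpoly ℚ A ∣ (∑ i : Fin k, C (w i) * X ^ (i : ℕ) : ℚ[X]) := by
      apply minpoly.dvd
      rw [← hB, map_sum]
      refine Finset.sum_congr rfl fun j _ => ?_
      rw [map_mul, map_pow, aeval_C, aeval_X, Algebra.smul_def]
    have hdeg := Polynomial.natDegree_le_of_dvd hdvd hW
    have hlt := (Polynomial.natDegree_lt_iff_degree_lt hW).2 (Polynomial.degree_sum_fin_lt w)
    omega
  · intro hk
    refine ⟨fun j => (minpoly ℚ A).coeff j, ?_, ?_⟩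
    · intro hz
      have h1 := congrFun hz ⟨(minpoly ℚ A).natDegree, hk⟩
      have h2 := (minpoly.monic hint).coeff_natDegree
      simp only [Pi.zero_apply] at h1
      rw [h2] at h1
      exact one_ne_zero h1
    · funext i
      rw [gm_mulVec, aeval_fin A hk]
      simp

theorem cramer' (A : Matrix ι ι ℚ) {k : ℕ} (hk : (minpoly ℚ A).natDegree = k) (i : Fin k) :
    (gm A k).det * (minpoly ℚ A).coeff i = -((gm A k).adjugate *ᵥ gb A k) i := by
  have hint : IsIntegral ℚ A := Algebra.IsIntegral.isIntegral A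
  have h1 : ∑ j : Fin k, (minpoly ℚ A).coeff j • A ^ (j : ℕ) = -A ^ k := by
    have h2 := aeval_fin A (k := k + 1) (by omega)
    rw [Fin.sum_univ_castSucc] at h2
    have h3 : (minpoly ℚ A).coeff k = 1 := by
      rw [← hk]
      exact (minpoly.monic hint).coeff_natDegree
    simp only [Fin.val_castSucc, Fin.val_last, h3, one_smul] at h2
    exact eq_neg_of_add_eq_zero_left h2
  have h4 : gm A k *ᵥ (fun j => (minpoly ℚ A).coeff j) = -gb A k := by
    funext i
    rw [gm_mulVec, h1]
    simp only [gb, Pi.neg_apply, Matrix.neg_apply, mul_neg, Finset.sum_neg_distrib]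
  have h5 : (gm A k).adjugate *ᵥ (gm A k *ᵥ (fun j => (minpoly ℚ A).coeff j)) =
      (gm A k).det • (fun j : Fin k => (minpoly ℚ A).coeff j) := by
    rw [Matrix.mulVec_mulVec, Matrix.adjugate_mul, Matrix.smul_mulVec, Matrix.one_mulVec]
  rw [h4, Matrix.mulVec_neg] at h5
  have h6 := congrFun h5 i
  simp only [Pi.neg_apply, Pi.smul_apply, smul_eq_mul] at h6
  exact h6.symm

end Pool.Agent.MPN
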