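import Pool.Agent.MPN.Defs

set_option autoImplicit false

/-!
Closed under minimal polynomials => contains the zero indicators (the matrix with rows `0, f` and
`0, 0`).
-/

namespace Pool.Agent.MPN

open Polynomial

theorem zeroInd {Ω : Type} {R : Subring (Ω → ℤ)} (h : MinPolyClosed R) : ZeroInd R := by
  intro f hf
  obtain ⟨m, hm, hmx⟩ := h (Fin 2) (fun i j => if i = 0 ∧ j = 1 then f else 0) (by
    intro i j
    split_ifs
    · exact hf
    · exact R.zero_mem) 1
  have he : zi f = m := by
    funext x
    have h1 := hmx x
    unfold zi
    set M : Matrix (Fin 2) (Fin 2) ℚ :=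
      at' (fun i j => if i = 0 ∧ j = 1 then f else 0) x with hM
    have hM2 : M ^ 2 = 0 := by
      rw [hM, pow_two]
      ext i j
      fin_cases i <;> fin_cases j <;> simp [at', Matrix.mul_apply, Fin.sum_univ_two]
    split_ifs with h0
    · have hM0 : M = 0 := by
        rw [hM]
        ext i j
        fin_cases i <;> fin_cases j <;> simp [at', h0]
      rw [hM0, minpoly.zero, coeff_X_one] at h1
      exact_mod_cast h1.symm
    · have hne : M ≠ 0 := by
        intro h2
        have h3 : M 0 1 = 0 := by rw [h2]; rfl
        simp [hM, at'] at h3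
        exact h0 h3
      have hint : IsIntegral ℚ M := Algebra.IsIntegral.isIntegral M
      have hd : minpoly ℚ M ∣ X ^ 2 := minpoly.dvd ℚ M (by simp [hM2])
      obtain ⟨i, hi, hX⟩ := (dvd_prime_pow (prime_X (R := ℚ)) 2).1 hd
      have hX' : minpoly ℚ M = X ^ i :=
        eq_of_monic_of_associated (minpoly.monic hint) (monic_X_pow i) hX
      interval_cases i
      · exact absurd (minpoly.natDegree_pos hint) (by rw [hX']; simp)
      · exfalso
        apply hne
        have h4 := minpoly.aeval ℚ M
        rw [hX'] at h4
        simpa using h4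
      · rw [hX'] at h1
        simp [coeff_X_pow] at h1
        exact h1.symm
  rw [he]
  exact hm

end Pool.Agent.MPN
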